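import Pool.Agent.PCO.StmtsA

/-!
# PCO EXB (helper82): zoom at an edge with a large face
-/

set_option autoImplicit false

open Matrix Filter Topology

namespace Pool.Agent.PCO.H82

open Pool.Agent.PFS Pool.Agent.PFJ Pool.Agent.PCO

/-- the coefficients `1, 1, 1/(k+1)` -/
noncomputable def cf (k : ℕ) : Fin 3 → ℝ := ![1, 1, 1 / ((k : ℝ) + 1)]

theorem cf_pos (k : ℕ) (i : Fin 3) : 0 < cf k i := by
  unfold cf
  fin_cases i
  · show (0 : ℝ) < 1
    norm_num
  · show (0 : ℝ) < 1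
    norm_num
  · show (0 : ℝ) < 1 / ((k : ℝ) + 1)
    positivity

theorem cf_sum {n : ℕ} (w : Fin 3 → V n) (k : ℕ) :
    ∑ i, cf k i • w i = w 0 + w 1 + (1 / ((k : ℝ) + 1)) • w 2 := by
  rw [Fin.sum_univ_three]
  show (1 : ℝ) • w 0 + (1 : ℝ) • w 1 + (1 / ((k : ℝ) + 1)) • w 2 = _
  rw [one_smul, one_smul]

/-- closedness in the form `y + ε x ∈ closure C` for all `ε > 0` -/
theorem cl_lim {n : ℕ} {C : Set (V n)} {y x : V n}
    (h : ∀ ε : ℝ, 0 < ε → y + ε • x ∈ closure C) : y ∈ closure C := by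
  have h1 : Tendsto (fun m : ℕ => y + (1 / ((m : ℝ) + 1)) • x) atTop (𝓝 (y + (0 : ℝ) • x)) :=
    tendsto_const_nhds.add (tendsto_one_div_add_atTop_nhds_zero_nat.smul_const x)
  rw [zero_smul, add_zero] at h1
  exact isClosed_closure.mem_of_tendsto h1 (Eventually.of_forall fun m => h _ (by positivity))

/-- a pointwise bounded sequence of linear maps on a subspace has a convergent subsequence -/
theorem exists_lin_lim {n : ℕ} (U0 : Submodule ℝ (V n)) (G : ℕ → (V n) →ₗ[ℝ] (V n))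
    (hb : ∀ y ∈ U0, ∃ B : ℝ, ∀ m, ‖G m y‖ ≤ B) :
    ∃ (φ : ℕ → ℕ) (T : (V n) →ₗ[ℝ] (V n)), StrictMono φ ∧
      ∀ y ∈ U0, Tendsto (fun m => G (φ m) y) atTop (𝓝 (T y)) := by
  classical
  let b := Module.finBasis ℝ U0
  choose B hB using fun i => hb (b i : V n) (b i).2
  have hbd : ∀ m, (fun i => G m (b i : V n)) ∈
      Metric.closedBall (0 : Fin (Module.finrank ℝ U0) → V n) (∑ i, |B i|) := by
    intro m
    rw [mem_closedBall_zero_iff, pi_norm_le_iff_of_nonneg (Finset.sum_nonneg fun i _ => abs_nonneg _)]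
    intro i
    exact ((hB i m).trans (le_abs_self _)).trans
      (Finset.single_le_sum (f := fun i => |B i|) (fun i _ => abs_nonneg _) (Finset.mem_univ i))
  obtain ⟨z, -, φ, hφ, hz⟩ := tendsto_subseq_of_bounded Metric.isBounded_closedBall hbd
  obtain ⟨T, hT⟩ := LinearMap.exists_extend (b.constr ℝ z)
  refine ⟨φ, T, hφ, ?_⟩
  intro y hy
  have hz' := tendsto_pi_nhds.1 hz
  have h1 : ∀ m, G m y = ∑ i, b.repr ⟨y, hy⟩ i • G m (b i : V n) := by
    intro m
    have h2 := congrArg (fun u : U0 => G m (u : V n)) (b.sum_repr ⟨y, hy⟩)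
    simp only [Submodule.coe_sum, Submodule.coe_smul, map_sum, map_smul] at h2
    exact h2.symm
  have h3 : T y = ∑ i, b.repr ⟨y, hy⟩ i • z i := by
    have h4 : T y = (b.constr ℝ z) ⟨y, hy⟩ := by
      rw [← hT]; rfl
    rw [h4, Module.Basis.constr_apply_fintype]
    rfl
  rw [h3]
  simp only [h1]
  exact tendsto_finsetSum _ fun i _ => (hz' i).const_smul _

/-- EXB -/
theorem exb : ExbStmt := by
  classical
  intro n C Γ hC hK w hw hd
  have hul := hC.hul
  obtain ⟨e1, -, -, e4, -⟩ := Pool.Agent.PFS.H60.elm n C Γ hC (Fin 3) w hw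
  set x : V n := w 0 + w 1 with hx
  have hx0 : w 0 ∈ closure C := hul.lamCl _ (hw.2 0)
  have hx1 : w 1 ∈ closure C := hul.lamCl _ (hw.2 1)
  have hx2 : w 2 ∈ closure C := hul.lamCl _ (hw.2 2)
  have hxcl : x ∈ closure C := hC.cl_add hx0 hx1
  have hxC : x ∉ C := by
    have h1 := hw.1.bd ![1, 1, 0] (by
      intro i; fin_cases i
      · show (0 : ℝ) ≤ 1; norm_num
      · show (0 : ℝ) ≤ 1; norm_num
      · show (0 : ℝ) ≤ 0; norm_num) ⟨2, rfl⟩
    rw [Fin.sum_univ_three] at h1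
    have h2 : (![1, 1, 0] : Fin 3 → ℝ) 0 • w 0 + (![1, 1, 0] : Fin 3 → ℝ) 1 • w 1 +
        (![1, 1, 0] : Fin 3 → ℝ) 2 • w 2 = x := by
      show (1 : ℝ) • w 0 + (1 : ℝ) • w 1 + (0 : ℝ) • w 2 = x
      rw [one_smul, one_smul, zero_smul, add_zero]
    rw [h2] at h1
    exact h1
  have hxw : x + w 2 ∈ C := by
    have h1 := hw.1.pos (fun _ => 1) (fun _ => one_pos)
    rw [Fin.sum_univ_three, one_smul, one_smul, one_smul] at h1
    exact h1
  have hxne : x ≠ 0 := by
    intro h0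
    have h1 : w 0 = 0 := hC.salient _ hx0 (by
      have h2 : -w 0 = w 1 := by
        rw [hx] at h0
        exact neg_eq_of_add_eq_zero_right h0
      rw [h2]; exact hx1)
    exact hul.lamNe _ (hw.2 0) h1
  obtain ⟨f1, -, -, f4, -, -⟩ := Pool.Agent.PFB.H69.fce n C hC.toPCone x hxcl hxne
  set U0 : Submodule ℝ (V n) := Submodule.span ℝ (Face C x) with hU0
  have hxU : x ∈ U0 := Submodule.subset_span f1
  have hwU : ∀ z : V n, z ∈ closure C → x - z ∈ closure C → z ∈ U0 := by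
    intro z hz hxz
    have h1 : x + z ∈ Face C x := by
      refine ⟨1 / 2, by norm_num, ?_, ?_⟩
      · have h2 : x - (1 / 2 : ℝ) • (x + z) = (1 / 2 : ℝ) • (x - z) := by
          rw [smul_add, smul_sub]
          have h3 : x = (1 / 2 : ℝ) • x + (1 / 2 : ℝ) • x := by
            rw [← add_smul]; norm_num
          nth_rewrite 1 [h3]
          abel
        rw [h2]
        exact hC.cl_smul hxz (by norm_num)
      · have h2 : x + z - (1 / 2 : ℝ) • x = (1 / 2 : ℝ) • x + z := by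
          have h3 : x = (1 / 2 : ℝ) • x + (1 / 2 : ℝ) • x := by
            rw [← add_smul]; norm_num
          nth_rewrite 1 [h3]
          abel
        rw [h2]
        exact hC.cl_add (hC.cl_smul hxcl (by norm_num)) hz
    have h4 := U0.sub_mem (Submodule.subset_span h1) hxU
    rwa [add_sub_cancel_left] at h4
  have hw0U : w 0 ∈ U0 := hwU _ hx0 (by rw [hx, add_sub_cancel_left]; exact hx1)
  have hw1U : w 1 ∈ U0 := hwU _ hx1 (by rw [hx, add_sub_cancel_right]; exact hx0)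
  -- the points and the zoom
  set p : ℕ → V n := fun k => ∑ i, cf k i • w i with hp
  have hpe : ∀ k, p k = x + (1 / ((k : ℝ) + 1)) • w 2 := fun k => cf_sum w k
  have hpC : ∀ k, p k ∈ C := fun k => hw.1.pos _ (cf_pos k)
  have hpH : ∀ k, p k ∈ Hull C Γ := fun k => e4 _ (cf_pos k)
  obtain ⟨φ0, g, s, q, hφ0, hg, hs, hq, hlim⟩ := Pool.Agent.PFS.H60.zom n C Γ hC p hpC hpH
  have hPX : ∀ m, IsPES C Γ (fun i => s m • act (g m) (cf (φ0 m) i • w i)) := by
    intro m
    have h1 := e1 (cf (φ0 m)) (cf_pos _)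
    obtain ⟨-, h2, -⟩ := Pool.Agent.PFS.H60.elm n C Γ hC (Fin 3) _ h1
    exact h2 (g m) (hg m) (s m) (hs m)
  obtain ⟨φ1, W, hφ1, hW, hWs, hWP⟩ := Pool.Agent.PFS.H37.lpsF n C Γ hC (Fin 3)
    (by rw [Fintype.card_fin]; norm_num)
    (fun m i => s m • act (g m) (cf (φ0 m) i • w i)) q hPX hq (by
      have h1 : ∀ m, ∑ i, s m • act (g m) (cf (φ0 m) i • w i) = s m • act (g m) (p (φ0 m)) := by
        intro m
        rw [hp, ← Finset.smul_sum, ← CC.act_sum]
      simp only [h1]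
      exact hlim)
  obtain ⟨φ2, U, hφ2, hLU, hfr⟩ := Pool.Agent.PFJ.H69.lsc n (fun m => img (g (φ1 m)) U0)
  -- bounded
  obtain ⟨B, hB, hnorm⟩ := hC.normal
  have hbd : ∀ y ∈ U0, ∃ B' : ℝ, ∀ m, ‖(s (φ1 (φ2 m)) • Matrix.mulVecLin
      (g (φ1 (φ2 m)) : Matrix (Fin n) (Fin n) ℝ)) y‖ ≤ B' := by
    intro y hy
    obtain ⟨M, hM, hM1, hM2⟩ := f4 y hy
    have hlim' : Tendsto (fun m => s (φ1 (φ2 m)) • act (g (φ1 (φ2 m))) (p (φ0 (φ1 (φ2 m)))))
        atTop (𝓝 q) := hlim.comp ((hφ1.comp hφ2).tendsto_atTop)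
    obtain ⟨R, hR⟩ := hlim'.norm.bddAbove_range
    refine ⟨B * (2 * M * R) + M * R, fun m => ?_⟩
    have hR' := hR (Set.mem_range_self m)
    set j := φ1 (φ2 m) with hj
    set P := p (φ0 j) with hP
    have hPx : P - x ∈ closure C := by
      rw [hP, hpe, add_sub_cancel_left]
      exact hC.cl_smul hx2 (by positivity)
    have h1 : M • P - y ∈ closure C := by
      have h2 : M • P - y = M • (P - x) + (M • x - y) := by rw [smul_sub]; abel
      rw [h2]
      exact hC.cl_add (hC.cl_smul hPx hM.le) hM1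
    have h2 : M • P + y ∈ closure C := by
      have h3 : M • P + y = M • (P - x) + (M • x + y) := by rw [smul_sub]; abel
      rw [h3]
      exact hC.cl_add (hC.cl_smul hPx hM.le) hM2
    have h3 := hnorm (s j • act (g j) (M • P + y)) (s j • act (g j) ((2 * M) • P))
      ((hC.sact_cl_iff (hg j) (hs j)).2 h2) (by
        rw [← smul_sub, ← CC.act_sub, hC.sact_cl_iff (hg j) (hs j)]
        have h4 : (2 * M) • P - (M • P + y) = M • P - y := by rw [two_mul, add_smul]; abel
        rw [h4]; exact h1)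
    rw [CC.act_add, CC.act_smul, CC.act_smul, smul_add, smul_comm (s j) M, smul_comm (s j) (2 * M),
      norm_smul (2 * M), Real.norm_of_nonneg (by positivity : 0 ≤ 2 * M)] at h3
    show ‖s j • act (g j) y‖ ≤ _
    have h5 : ‖s j • act (g j) y‖ ≤ ‖M • s j • act (g j) P + s j • act (g j) y‖ +
        ‖M • s j • act (g j) P‖ := by
      have h6 : s j • act (g j) y = (M • s j • act (g j) P + s j • act (g j) y) -
          M • s j • act (g j) P := by abel
      nth_rewrite 1 [h6]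
      exact norm_sub_le _ _
    rw [norm_smul M (s j • act (g j) P), Real.norm_of_nonneg hM.le] at h5
    have h7 : B * (2 * M * ‖s j • act (g j) P‖) ≤ B * (2 * M * R) := by gcongr
    have h8 : M * ‖s j • act (g j) P‖ ≤ M * R := by gcongr
    linarith
  obtain ⟨φ3, T, hφ3, hT⟩ := exists_lin_lim U0 (fun m => s (φ1 (φ2 m)) • Matrix.mulVecLin
      (g (φ1 (φ2 m)) : Matrix (Fin n) (Fin n) ℝ)) hbd
  -- the final subsequence
  set θ : ℕ → ℕ := fun m => φ1 (φ2 (φ3 m)) with hθ
  have hθm : StrictMono θ := hφ1.comp (hφ2.comp hφ3)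
  set k : ℕ → ℕ := fun m => φ0 (θ m) with hk
  have hkm : StrictMono k := hφ0.comp hθm
  have hT' : ∀ y ∈ U0, Tendsto (fun m => s (θ m) • act (g (θ m)) y) atTop (𝓝 (T y)) :=
    fun y hy => hT y hy
  have hWlim : ∀ i, Tendsto (fun m => s (θ m) • act (g (θ m)) (cf (k m) i • w i)) atTop
      (𝓝 (W i)) := fun i => (hW i).comp ((hφ2.comp hφ3).tendsto_atTop)
  have hplim : Tendsto (fun m => s (θ m) • act (g (θ m)) (p (k m))) atTop (𝓝 q) :=
    hlim.comp hθm.tendsto_atTop
  have ht0 : Tendsto (fun m => 1 / ((k m : ℝ) + 1)) atTop (𝓝 0) :=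
    tendsto_one_div_add_atTop_nhds_zero_nat.comp hkm.tendsto_atTop
  have hTw0 : T (w 0) = W 0 := by
    refine tendsto_nhds_unique (hT' _ hw0U) ?_
    have h1 := hWlim 0
    have h2 : ∀ m, cf (k m) 0 • w 0 = w 0 := fun m => one_smul ℝ (w 0)
    simp only [h2] at h1
    exact h1
  have hTw1 : T (w 1) = W 1 := by
    refine tendsto_nhds_unique (hT' _ hw1U) ?_
    have h1 := hWlim 1
    have h2 : ∀ m, cf (k m) 1 • w 1 = w 1 := fun m => one_smul ℝ (w 1)
    simp only [h2] at h1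
    exact h1
  have hW2 : Tendsto (fun m => s (θ m) • act (g (θ m)) ((1 / ((k m : ℝ) + 1)) • w 2)) atTop
      (𝓝 (W 2)) := hWlim 2
  -- pull back of the cone
  have hback : ∀ (z : ℕ → V n) (z0 : V n), z0 ∈ C →
      Tendsto (fun m => s (θ m) • act (g (θ m)) (z m)) atTop (𝓝 z0) → ∀ᶠ m in atTop, z m ∈ C := by
    intro z z0 hz0 hz
    filter_upwards [hz.eventually (hC.isOpen.mem_nhds hz0)] with m hm
    exact (hC.sact_mem_iff (hg _) (hs _)).1 hm
  have hTU : ∀ y ∈ U0, T y ∈ U := by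
    intro y hy
    refine hLU.2 φ3 (fun m => s (θ m) • act (g (θ m)) y) (T y) hφ3 (fun m => ?_) (hT' y hy)
    exact Submodule.smul_mem _ _ ⟨y, hy, rfl⟩
  -- the key estimate
  have hkey : ∀ y ∈ U0, ∀ τ : ℝ, T y + τ • W 2 ∈ closure C → ∀ ε : ℝ, 0 < ε →
      ∀ᶠ m in atTop, y + ε • x + ((τ + ε) * (1 / ((k m : ℝ) + 1))) • w 2 ∈ C := by
    intro y hy τ hcl ε hε
    have h1 : T y + τ • W 2 + ε • q ∈ C := hC.cl_add' hcl (hC.smul q hq ε hε)
    have h2 : Tendsto (fun m => s (θ m) • act (g (θ m))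
        (y + τ • ((1 / ((k m : ℝ) + 1)) • w 2) + ε • p (k m))) atTop
        (𝓝 (T y + τ • W 2 + ε • q)) := by
      have h3 := ((hT' y hy).add (hW2.const_smul τ)).add (hplim.const_smul ε)
      refine h3.congr fun m => ?_
      rw [CC.act_add, CC.act_add, CC.act_smul (g (θ m)) τ, CC.act_smul (g (θ m)) ε,
        smul_add, smul_add, smul_comm (s (θ m)) τ, smul_comm (s (θ m)) ε]
    filter_upwards [hback _ _ h1 h2] with m hm
    have h4 : y + τ • ((1 / ((k m : ℝ) + 1)) • w 2) + ε • p (k m) =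
        y + ε • x + ((τ + ε) * (1 / ((k m : ℝ) + 1))) • w 2 := by
      rw [hpe, smul_add, smul_smul, smul_smul, add_mul, add_smul]
      abel
    rw [← h4]
    exact hm
  have hpull : ∀ y ∈ U0, ∀ τ : ℝ, T y + τ • W 2 ∈ closure C → y ∈ closure C := by
    intro y hy τ hcl
    apply cl_lim (x := x)
    intro ε hε
    have h1 : Tendsto (fun m => y + ε • x + ((τ + ε) * (1 / ((k m : ℝ) + 1))) • w 2) atTop
        (𝓝 (y + ε • x + ((τ + ε) * 0) • w 2)) :=
      tendsto_const_nhds.add ((ht0.const_mul (τ + ε)).smul_const (w 2))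
    rw [mul_zero, zero_smul, add_zero] at h1
    exact isClosed_closure.mem_of_tendsto h1
      ((hkey y hy τ hcl ε hε).mono fun m hm => subset_closure hm)
  have hiff : ∀ y ∈ U0, (T y ∈ closure C ↔ y ∈ closure C) := by
    intro y hy
    constructor
    · intro h
      exact hpull y hy 0 (by rw [zero_smul, add_zero]; exact h)
    · intro h
      exact isClosed_closure.mem_of_tendsto (hT' y hy)
        (Eventually.of_forall fun m => (hC.sact_cl_iff (hg _) (hs _)).2 h)
  have hinj : ∀ y ∈ U0, T y = 0 → y = 0 := by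
    intro y hy h0
    apply hC.salient
    · rw [← hiff y hy, h0]
      exact hC.zero_cl
    · rw [← hiff (-y) (U0.neg_mem hy), map_neg, h0, neg_zero]
      exact hC.zero_cl
  have hfU : Module.finrank ℝ U = Module.finrank ℝ U0 := by
    rw [← hfr 0, (Pool.Agent.PFJ.H32.img n).1]
  have hmap : U0.map T = U := by
    apply Submodule.eq_of_le_of_finrank_eq
    · rintro _ ⟨y, hy, rfl⟩
      exact hTU y hy
    · rw [hfU]
      have h1 : U0.map T = LinearMap.range (T ∘ₗ U0.subtype) := by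
        rw [LinearMap.range_comp, Submodule.range_subtype]
      rw [h1]
      apply LinearMap.finrank_range_of_inj
      rw [injective_iff_map_eq_zero]
      intro y hy
      exact Subtype.ext (hinj y.1 y.2 hy)
  have hsurj : ∀ z ∈ U, ∃ y ∈ U0, T y = z := by
    intro z hz
    rw [← hmap] at hz
    exact hz
  refine ⟨U, W 2, T, ⟨?_, ?_, ?_⟩, hfU, fun y hy => ⟨hTU y hy, hiff y hy, hinj y hy⟩, hsurj⟩
  · rw [hfU]
    exact hd
  · refine ⟨W 0, ?_, W 1, ?_, ?_⟩
    · rw [← hTw0]; exact hTU _ hw0U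
    · rw [← hTw1]; exact hTU _ hw1U
    · have h1 : ![W 0, W 1, W 2] = W := by
        funext i
        fin_cases i <;> rfl
      rw [h1]
      exact hWP
  · intro z hz τ hcl
    obtain ⟨y, hy, rfl⟩ := hsurj z hz
    have hycl := hpull y hy τ hcl
    refine ⟨(hiff y hy).2 hycl, ?_⟩
    by_contra hneg
    push Not at hneg
    have hε : 0 < -τ / 2 := by linarith
    obtain ⟨m, hm⟩ := (hkey y hy τ hcl (-τ / 2) hε).exists
    obtain ⟨M, hM, hM1, -⟩ := f4 y hy
    apply hxC
    set t : ℝ := 1 / ((k m : ℝ) + 1) with ht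
    have htp : 0 < t := by rw [ht]; positivity
    -- `(M + ε) x ≥ ε t w₂`
    have h1 : (M + -τ / 2) • x - ((-τ / 2) * t) • w 2 ∈ closure C := by
      have h2 := hC.cl_add hM1 (subset_closure hm)
      have h3 : M • x - y + (y + (-τ / 2) • x + ((τ + -τ / 2) * t) • w 2) =
          (M + -τ / 2) • x - ((-τ / 2) * t) • w 2 := by
        have h4 : (τ + -τ / 2) * t = -((-τ / 2) * t) := by ring
        rw [h4, neg_smul, add_smul]
        abel
      rwa [h3] at h2
    have hεt : 0 < (-τ / 2) * t := mul_pos hε htp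
    have h5 : ((-τ / 2) * t) • (x + w 2) ∈ C := hC.smul _ hxw _ hεt
    have h6 : (((-τ / 2) * t) + (M + -τ / 2)) • x ∈ C := by
      apply hC.mem_of_le h5
      have h7 : (((-τ / 2) * t) + (M + -τ / 2)) • x - ((-τ / 2) * t) • (x + w 2) =
          (M + -τ / 2) • x - ((-τ / 2) * t) • w 2 := by
        rw [add_smul _ (M + -τ / 2), smul_add _ x (w 2)]
        abel
      rw [h7]
      exact h1
    exact (hC.smul_iff (by positivity)).1 h6

end Pool.Agent.PCO.H82
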