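import Pool.Agent.PCO.StmtsB

/-!
# PCO HLM (helper82): limits of special pairs along `a + c_m + v`
-/

set_option autoImplicit false

open Matrix Filter Topology

namespace Pool.Agent.PCO.H82

open Pool.Agent.PFS Pool.Agent.PFJ Pool.Agent.PCO

/-- a sequence in the closed cone dominated by a convergent sequence is bounded -/
theorem hlm_bdd {n : ℕ} {C : Set (V n)} (hC : PCone C) {x y : ℕ → V n} {p : V n} {K : ℝ}
    (hx : ∀ m, x m ∈ closure C) (hy : ∀ m, K • y m - x m ∈ closure C)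
    (hlim : Tendsto y atTop (𝓝 p)) : ∃ R : ℝ, ∀ m, ‖x m‖ ≤ R := by
  obtain ⟨B, hB, hnorm⟩ := hC.normal
  obtain ⟨R, hR⟩ := (hlim.const_smul K).norm.bddAbove_range
  refine ⟨B * R, fun m => (hnorm _ _ (hx m) (hy m)).trans ?_⟩
  exact mul_le_mul_of_nonneg_left (hR ⟨m, rfl⟩) hB.le

/-- a bounded sequence has a convergent subsequence -/
theorem hlm_sub {n : ℕ} {x : ℕ → V n} (h : ∃ R : ℝ, ∀ m, ‖x m‖ ≤ R) :
    ∃ (φ : ℕ → ℕ) (z : V n), StrictMono φ ∧ Tendsto (fun m => x (φ m)) atTop (𝓝 z) := by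
  obtain ⟨R, hR⟩ := h
  obtain ⟨z, -, φ, hφ, hz⟩ := tendsto_subseq_of_bounded
    (Metric.isBounded_closedBall (x := (0 : V n)) (r := R)) (x := x)
    (fun m => by rw [mem_closedBall_zero_iff]; exact hR m)
  exact ⟨φ, z, hφ, hz⟩

/-- HLM -/
theorem hlm (wbf : WbfStmt) (bf1 : Bf1Stmt) (bf2 : Bf2Stmt) (bxl : BxlStmt) (prj : PrjStmt)
    (prf : PrfStmt) (prc : PrcStmt) (spf : SpfStmt) : HlmStmt := by
  classical
  intro n C Γ d hH U v v' a ρ hS c g s p hc hg hs hp hlim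
  have hC : CC C Γ := hH.toCC
  obtain ⟨-, v_cl, -, -, -, vC, -, -, -⟩ := bf1 n C Γ hC hH.maxc U v hS.box
  obtain ⟨-, v'_cl, -, -, -, -, -, -, -⟩ := bf1 n C Γ hC hH.maxc U v' hS.box'
  obtain ⟨-, -, -, -, -, img1, -⟩ := bf2 n C Γ hC hH.maxc U v hS.box
  obtain ⟨-, -, -, -, -, img2, -⟩ := bf2 n C Γ hC hH.maxc U v' hS.box'
  obtain ⟨⟨M, hM, hMv⟩, ⟨M', hM', hMv'⟩, -, -, -⟩ := spf n C Γ d hH U v v' a ρ hS
  obtain ⟨lsf1, -, lsf3, -, -⟩ := Pool.Agent.PFJ.H10.lsf n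
  have haU := hS.bd.1
  have hacl := hS.bd.2.1
  have hfr : ∀ m, Module.finrank ℝ (img (g m) U) = d := fun m => by
    rw [wbf n |>.2.2.2.2 (g m) U]; exact hS.dim
  -- first limit
  set f : ℕ → V n := fun m => s m • act (g m) (a + c m) with hf
  have hmemI : ∀ m (y : V n), y ∈ U → s m • act (g m) y ∈ img (g m) U := fun m y hy =>
    (img (g m) U).smul_mem _ (mem_img.2 ⟨y, hy, rfl⟩)
  have hfU : ∀ m, f m ∈ img (g m) U := fun m => hmemI m _ (U.add_mem haU (hc m).1)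
  have hsum : ∀ m (x y : V n), s m • act (g m) (x + y) = s m • act (g m) x + s m • act (g m) y :=
    fun m x y => by rw [CC.act_add, smul_add]
  have hlim1 : Tendsto (fun m => f m + s m • act (g m) v) atTop (𝓝 p) := by
    refine hlim.congr fun m => ?_
    rw [hf]; exact hsum m _ _
  obtain ⟨φ1, U1, v1, f1, hφ1, hB1, hf1u, hf1p, hf1, hv1, hL1, -, hfr1⟩ :=
    bxl n C Γ hC hH.maxc (fun m => img (g m) U) (fun m => s m • act (g m) v) f p
      (fun m => (img1 (g m) (hg m) (s m) (hs m)).1) hfU hp hlim1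
  -- second subsequence
  have hbv : ∃ R : ℝ, ∀ m, ‖s (φ1 m) • act (g (φ1 m)) v'‖ ≤ R := by
    refine hlm_bdd hC.toPCone (K := M) (fun m => (hC.sact_cl_iff (hg _) (hs _)).2 v'_cl)
      (fun m => ?_) (hlim.comp hφ1.tendsto_atTop)
    show M • (s (φ1 m) • act (g (φ1 m)) (a + c (φ1 m) + v)) - s (φ1 m) • act (g (φ1 m)) v' ∈
      closure C
    have h1 : M • (s (φ1 m) • act (g (φ1 m)) (a + c (φ1 m) + v)) -
        s (φ1 m) • act (g (φ1 m)) v' =
        s (φ1 m) • act (g (φ1 m)) (M • (a + v) - v' + M • c (φ1 m)) := by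
      rw [smul_comm M, ← smul_sub, ← CC.act_smul, ← CC.act_sub]
      congr 2
      rw [smul_add, smul_add, smul_add]; abel
    rw [h1, hC.sact_cl_iff (hg _) (hs _)]
    exact hC.cl_add hMv (hC.cl_smul (hc _).2.1 hM.le)
  obtain ⟨φ2, v1', hφ2, hv1'⟩ := hlm_sub hbv
  have hba : ∃ R : ℝ, ∀ m, ‖s (φ1 (φ2 m)) • act (g (φ1 (φ2 m))) a‖ ≤ R := by
    refine hlm_bdd hC.toPCone (K := 1) (fun m => (hC.sact_cl_iff (hg _) (hs _)).2 hacl)
      (fun m => ?_) (hlim.comp (hφ1.comp hφ2).tendsto_atTop)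
    show (1 : ℝ) • (s (φ1 (φ2 m)) • act (g (φ1 (φ2 m))) (a + c (φ1 (φ2 m)) + v)) -
      s (φ1 (φ2 m)) • act (g (φ1 (φ2 m))) a ∈ closure C
    have h1 : (1 : ℝ) • (s (φ1 (φ2 m)) • act (g (φ1 (φ2 m))) (a + c (φ1 (φ2 m)) + v)) -
        s (φ1 (φ2 m)) • act (g (φ1 (φ2 m))) a =
        s (φ1 (φ2 m)) • act (g (φ1 (φ2 m))) (c (φ1 (φ2 m)) + v) := by
      rw [one_smul, ← smul_sub, ← CC.act_sub]
      congr 2
      abel
    rw [h1, hC.sact_cl_iff (hg _) (hs _)]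
    exact hC.cl_add (hc _).2.1 v_cl
  obtain ⟨φ3, a1, hφ3, ha1⟩ := hlm_sub hba
  set φ : ℕ → ℕ := fun m => φ1 (φ2 (φ3 m)) with hφ
  have hφm : StrictMono φ := hφ1.comp (hφ2.comp hφ3)
  have h23 : StrictMono (fun m => φ2 (φ3 m)) := hφ2.comp hφ3
  have hLφ : LimS (fun m => img (g (φ m)) U) U1 := lsf1 _ _ (fun m => φ2 (φ3 m)) hL1 h23
  have hvφ : Tendsto (fun m => s (φ m) • act (g (φ m)) v) atTop (𝓝 v1) :=
    hv1.comp h23.tendsto_atTop
  have hfφ : Tendsto (fun m => f (φ m)) atTop (𝓝 f1) := hf1.comp h23.tendsto_atTop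
  have hv'φ : Tendsto (fun m => s (φ m) • act (g (φ m)) v') atTop (𝓝 v1') :=
    hv1'.comp hφ3.tendsto_atTop
  have haφ : Tendsto (fun m => s (φ m) • act (g (φ m)) a) atTop (𝓝 a1) := ha1
  -- f1 + v1' is in the cone
  have hfv' : Tendsto (fun m => f (φ m) + s (φ m) • act (g (φ m)) v') atTop (𝓝 (f1 + v1')) :=
    hfφ.add hv'φ
  have hcone : f1 + v1' ∈ C := by
    have h1 : (1 + M') • (f1 + v1') - p ∈ closure C := by
      refine isClosed_closure.mem_of_tendsto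
        ((hfv'.const_smul (1 + M')).sub (hlim.comp hφm.tendsto_atTop))
        (Eventually.of_forall fun m => ?_)
      show (1 + M') • (s (φ m) • act (g (φ m)) (a + c (φ m)) + s (φ m) • act (g (φ m)) v') -
        s (φ m) • act (g (φ m)) (a + c (φ m) + v) ∈ closure C
      have h2 : (1 + M') • (s (φ m) • act (g (φ m)) (a + c (φ m)) +
          s (φ m) • act (g (φ m)) v') - s (φ m) • act (g (φ m)) (a + c (φ m) + v) =
          s (φ m) • act (g (φ m)) ((M' • (a + v') - v) + (M' • c (φ m) + v')) := by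
        rw [← hsum, smul_comm (1 + M'), ← smul_sub, ← CC.act_smul, ← CC.act_sub]
        congr 2
        rw [add_smul, one_smul, smul_add, smul_add, smul_add]; abel
      rw [h2, hC.sact_cl_iff (hg _) (hs _)]
      exact hC.cl_add hMv' (hC.cl_add (hC.cl_smul (hc _).2.1 hM'.le) v'_cl)
    have h2 := hC.mem_of_le hp h1
    exact (hC.smul_iff (by linarith)).1 h2
  -- second box
  obtain ⟨φ4, U4, v4, f4, hφ4, hB4, -, -, -, hv4, hL4, -, -⟩ :=
    bxl n C Γ hC hH.maxc (fun m => img (g (φ m)) U) (fun m => s (φ m) • act (g (φ m)) v')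
      (fun m => f (φ m)) (f1 + v1')
      (fun m => (img2 (g (φ m)) (hg _) (s (φ m)) (hs _)).1) (fun m => hfU _) hcone hfv'
  have hU4 : U4 = U1 := lsf3 _ _ _ hL4 (lsf1 _ _ φ4 hLφ hφ4)
  have hv4' : v4 = v1' := tendsto_nhds_unique hv4 (hv'φ.comp hφ4.tendsto_atTop)
  rw [hU4, hv4'] at hB4
  -- the limit of `a`
  have hdim1 : Module.finrank ℝ U1 = d := by rw [← hfr1 0]; exact hfr _
  have ha1U : a1 ∈ U1 := hLφ.2 id _ a1 strictMono_id (fun m => hmemI _ a haU) haφ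
  have ha1cl : a1 ∈ closure C := isClosed_closure.mem_of_tendsto haφ
    (Eventually.of_forall fun m => (hC.sact_cl_iff (hg _) (hs _)).2 hacl)
  obtain ⟨-, -, -, -, -, vC1, -, -, -⟩ := bf1 n C Γ hC hH.maxc U1 v1 hB1
  have hnotlim : ∀ (x : ℕ → V n) (x1 : V n), (∀ m, x m ∉ C) →
      Tendsto (fun m => s (φ m) • act (g (φ m)) (x m)) atTop (𝓝 x1) → x1 ∉ C := by
    intro x x1 hx hx1 hx1C
    obtain ⟨m, hm⟩ := (hx1.eventually (hC.isOpen.mem_nhds hx1C)).exists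
    exact hx m ((hC.sact_mem_iff (hg _) (hs _)).1 hm)
  have hnU : ∀ e, Bd C U e → e + v ∉ C := by
    intro e he h1
    have h2 := (vC e he.1 1).1 (by rw [one_smul]; exact h1)
    exact he.2.2.2 h2.1
  have ha1v1 : a1 + v1 ∉ C := by
    refine hnotlim (fun _ => a + v) _ (fun _ => hnU a hS.bd) ?_
    refine (haφ.add hvφ).congr fun m => (hsum _ _ _).symm
  have ha1nu : ¬ Unt C U1 a1 := by
    intro h1
    have h2 := (vC1 a1 ha1U 1).2 ⟨h1, one_pos⟩
    rw [one_smul] at h2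
    exact ha1v1 h2
  have ha1ne : a1 ≠ 0 := by
    intro h0
    have h1 : f1 - a1 + v1 ∉ C := by
      refine hnotlim (fun m => c (φ m) + v) _ (fun m => hnU _ (hc _)) ?_
      refine ((hfφ.sub haφ).add hvφ).congr fun m => ?_
      show s (φ m) • act (g (φ m)) (a + c (φ m)) - s (φ m) • act (g (φ m)) a +
        s (φ m) • act (g (φ m)) v = s (φ m) • act (g (φ m)) (c (φ m) + v)
      rw [hsum, hsum]; abel
    rw [h0, sub_zero, hf1p] at h1
    exact h1 hp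
  -- the projection
  obtain ⟨p0, hp0⟩ := prj n C Γ d hH U v hS.box hS.dim
  obtain ⟨-, -, -, -, -, -, prf7, -⟩ := prf n C Γ d hH U v hS.box hS.dim p0 hp0
  choose pm hpm hpmx using fun m => prf7 (g (φ m)) (hg _) (s (φ m)) (hs _)
  refine ⟨φ, U1, v1, v1', a1, hφm, ⟨hB1, hB4, hdim1, ⟨ha1U, ha1cl, ha1ne, ha1nu⟩, hS.pos, ?_⟩,
    hLφ, hvφ, hv'φ, haφ⟩
  intro q hq
  have h1 := prc n C Γ d hH (fun m => img (g (φ m)) U) (fun m => s (φ m) • act (g (φ m)) v) U1 v1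
    pm q (fun m => s (φ m) • act (g (φ m)) v') v1'
    (fun m => (img1 (g (φ m)) (hg _) (s (φ m)) (hs _)).1) (fun m => hfr _) hB1 hdim1 hLφ hvφ
    hpm hq hv'φ
  refine tendsto_nhds_unique h1 ((haφ.const_smul ρ).congr fun m => ?_)
  show ρ • (s (φ m) • act (g (φ m)) a) = pm m (s (φ m) • act (g (φ m)) v')
  rw [map_smul, hpmx, hS.prj p0 hp0, CC.act_smul, smul_comm]

end Pool.Agent.PCO.H82
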